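import Pool.Agent.Lib.TGL_h44.Tr
import Pool.Agent.Lib.LU1_h15.EtDesc

/-!
# TANK G, TRACK L, row TR: the algebraic closure in `Ω` of an intermediate field
-/

set_option autoImplicit false

open Polynomial

namespace Pool.Agent.TGL44

open Pool.Agent.TAO (OVal VPos Ctx0)
open Pool.Agent.ALLO (locv icl ICl decP)
open Pool.Agent.LU1 (FracIs fixO mem_fixO)

universe u w

variable {k Ω : Type u} [Field k] [Field Ω] [Algebra k Ω] {𝕂 : Type w} [Field 𝕂] [LinearOrder 𝕂]
  [IsStrictOrderedRing 𝕂] {v : OVal 𝕂 Ω} {K : IntermediateField k Ω} {N : IntermediateField K Ω}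

/-- The algebraic closure of `K` in `Ω`. -/
noncomputable def Wc (K : IntermediateField k Ω) : IntermediateField k Ω :=
  (algebraicClosure K Ω).restrictScalars k

theorem mem_Wc {a : Ω} : a ∈ Wc K ↔ IsAlgebraic K a := by
  rw [Wc, IntermediateField.mem_restrictScalars, mem_algebraicClosure_iff]

theorem le_Wc : K ≤ Wc K := fun a ha =>
  mem_Wc.2 (isAlgebraic_algebraMap (R := K) (A := Ω) (⟨a, ha⟩ : K))

theorem N_le_Wc [FiniteDimensional K N] : ∀ a ∈ N, a ∈ Wc K := fun a ha => by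
  rw [mem_Wc]
  have h1 : IsAlgebraic K (⟨a, ha⟩ : N) := Algebra.IsAlgebraic.isAlgebraic _
  exact h1.algHom N.val

theorem isAlgClosed_Wc [IsAlgClosed Ω] (K : IntermediateField k Ω) : IsAlgClosed (Wc K) :=
  IsAlgClosure.isAlgClosed (R := K) (K := algebraicClosure K Ω)

theorem trdeg_Wc (K : IntermediateField k Ω) :
    Algebra.trdeg k (Wc K) = Algebra.trdeg k K := by
  let _ : Algebra K (Wc K) := (IntermediateField.inclusion (le_Wc (K := K))).toRingHom.toAlgebra
  have _ : IsScalarTower K (Wc K) Ω := IsScalarTower.of_algebraMap_eq fun _ => rfl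
  have _ : IsScalarTower k K (Wc K) := IsScalarTower.of_algebraMap_eq fun _ => rfl
  have _ : Algebra.IsAlgebraic K (Wc K) := ⟨fun e =>
    (isAlgebraic_algebraMap_iff (R := K) (A := Ω) (algebraMap (Wc K) Ω).injective).1
      (mem_Wc.1 e.2)⟩
  have h2 : Algebra.trdeg k K + Algebra.trdeg K (Wc K) = Algebra.trdeg k (Wc K) :=
    trdeg_add_eq k K
  rw [_root_.trdeg_eq_zero (R := K) (A := Wc K), add_zero] at h2
  exact h2.symm

theorem alg_dn {R : Subalgebra k Ω} (hR : FracIs R K) (g : Wc K) :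
    IsAlgebraic (dn (Wc K) R) g := by
  have h1 : IsAlgebraic R (g : Ω) := Pool.Agent.LU1.isAlgebraic_of_frac hR (mem_Wc.1 g.2)
  obtain ⟨P, hP, hPg⟩ := h1
  have hRW : ∀ f ∈ R, f ∈ Wc K := fun f hf => le_Wc (hR.1 f hf)
  let ι : R →+* dn (Wc K) R :=
    { toFun := fun a => ⟨⟨a, hRW a a.2⟩, a.2⟩
      map_one' := rfl
      map_mul' := fun _ _ => rfl
      map_zero' := rfl
      map_add' := fun _ _ => rfl }
  have hι : Function.Injective ι := fun a b hab =>
    Subtype.ext (congrArg (fun c : dn (Wc K) R => ((c : Wc K) : Ω)) hab)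
  refine ⟨P.map ι, (Polynomial.map_ne_zero_iff hι).2 hP, ?_⟩
  rw [aeval_def, eval₂_map]
  apply Subtype.ext
  have h2 := hom_eval₂ P ((algebraMap (dn (Wc K) R) (Wc K)).comp ι) ((Wc K).val : Wc K →+* Ω) g
  refine h2.trans ?_
  rw [aeval_def] at hPg
  exact hPg

/-- `v` is trivial on `k` and has residue field `k`. -/
theorem ctx_Wc {n : ℕ} (h : Ctx0 k v n) {m : ℕ} (hK : Algebra.trdeg k K = m) :
    Ctx0 k (rv v (Wc K)) m where
  triv := fun c hc => h.triv c hc
  res := fun g hg hvg => by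
    obtain ⟨c, hc, h1⟩ := h.res g (coe_ne.2 hg) hvg
    exact ⟨c, hc, vpos_rv.2 h1⟩
  trdeg := by rw [trdeg_Wc, hK]

end Pool.Agent.TGL44
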