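import Pool.Agent.Lib.TGL.Defs
import Pool.Agent.Lib.TGL_h44.Wc

/-!
# TANK G, TRACK L, row TR: transfer of limit frames between `Ω` and a subfield `W`
-/

set_option autoImplicit false

open Polynomial

namespace Pool.Agent.TGL44

open Pool.Agent.TAO (OVal VPos Ctx0)
open Pool.Agent.ALLO (locv icl ICl decP)
open Pool.Agent.LU1 (FracIs fixO mem_fixO)
open Pool.Agent.TGL (LF)
open Pool.Agent.ALLZO (GoodBasis)

universe u w

variable {k Ω : Type u} [Field k] [Field Ω] [Algebra k Ω] {𝕂 : Type w} [Field 𝕂] [LinearOrder 𝕂]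
  [IsStrictOrderedRing 𝕂] {v : OVal 𝕂 Ω} {W : IntermediateField k Ω} {r D : ℕ}

/-- `χ 0 = 1` -/
theorem lf_χ_zero (B : LF k v r D) : B.χ 0 = 1 := by
  have h1 := B.χ_add 0 B.Γ.zero_mem 0 B.Γ.zero_mem
  rw [add_zero] at h1
  have h2 := B.χ_ne 0 B.Γ.zero_mem
  exact (mul_eq_left₀ h2).1 h1.symm

theorem lf_χ_neg (B : LF k v r D) {γ : 𝕂} (hγ : γ ∈ B.Γ) : B.χ (-γ) = (B.χ γ)⁻¹ := by
  have h1 := B.χ_add γ hγ (-γ) (B.Γ.neg_mem hγ)
  rw [add_neg_cancel, lf_χ_zero] at h1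
  exact eq_inv_of_mul_eq_one_right h1.symm

/-- The monomials are in every field containing the ring. -/
theorem lf_χ_mem_field (B : LF k v r D) (hW : ∀ f ∈ B.R, f ∈ W) {γ : 𝕂} (hγ : γ ∈ B.Γ) :
    B.χ γ ∈ W := by
  rcases le_total 0 γ with h | h
  · exact hW _ (B.χ_mem γ hγ h)
  · have h1 := hW _ (B.χ_mem (-γ) (B.Γ.neg_mem hγ) (by linarith))
    rw [lf_χ_neg B hγ] at h1
    have h2 := W.inv_mem h1
    rwa [inv_inv] at h2

open Classical in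
/-- The monomials in `W`. -/
noncomputable def χW (W : IntermediateField k Ω) (B : LF k v r D) (γ : 𝕂) : W :=
  if h : B.χ γ ∈ W then ⟨B.χ γ, h⟩ else 1

theorem χW_coe (B : LF k v r D) (hW : ∀ f ∈ B.R, f ∈ W) {γ : 𝕂} (hγ : γ ∈ B.Γ) :
    (χW W B γ : Ω) = B.χ γ := by
  rw [χW, dif_pos (lf_χ_mem_field B hW hγ)]

/-- A limit frame inside `W`. -/
noncomputable def lfDn (B : LF k v r D) (hW : ∀ f ∈ B.R, f ∈ W) : LF k (rv v W) r D where
  Γ := B.Γ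
  fg := B.fg
  rk := B.rk
  χ := χW W B
  χ_ne := fun γ hγ => coe_ne.1 (by rw [χW_coe B hW hγ]; exact B.χ_ne γ hγ)
  χ_add := fun γ hγ δ hδ => Subtype.ext (by
    rw [χW_coe B hW (B.Γ.add_mem hγ hδ), B.χ_add γ hγ δ hδ, ← χW_coe B hW hγ,
      ← χW_coe B hW hδ]
    rfl)
  χ_val := fun γ hγ => by rw [rv_apply, χW_coe B hW hγ]; exact B.χ_val γ hγ
  y := fun i => ⟨B.y i, hW _ (B.y_mem i)⟩
  y_ne := fun i h => B.y_ne i (congrArg Subtype.val h)
  y_pos := fun i => B.y_pos i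
  R := dn W B.R
  nonneg := fun f hf => ge_rv.2 (B.nonneg _ hf)
  loc := fun f hf h0 hv => B.loc _ hf (coe_ne.2 h0) hv
  χ_mem := fun γ hγ h0 => by
    rw [mem_dn, χW_coe B hW hγ]
    exact B.χ_mem γ hγ h0
  y_mem := fun i => B.y_mem i
  fgen := by
    classical
    obtain ⟨F, hF⟩ := B.fgen
    have hFR : ∀ f ∈ F, f ∈ B.R := fun f hf => by
      rw [hF]
      exact Pool.Agent.ALLZO.le_locv _ (Algebra.subset_adjoin (Or.inl hf))
    refine ⟨F.preimage (fun a : W => (a : Ω)) (Subtype.val_injective.injOn), ?_⟩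
    rw [← dn_up (W := W) (locv (rv v W) _), up_locv, up_adjoin, Set.image_union, Set.image_image]
    have h1 : (fun a : W => (a : Ω)) '' (F.preimage (fun a : W => (a : Ω))
        (Subtype.val_injective.injOn) : Set W) = (F : Set Ω) := by
      rw [Finset.coe_preimage]
      ext f
      constructor
      · rintro ⟨a, ha, rfl⟩
        exact ha
      · intro hf
        exact ⟨⟨f, hW f (hFR f hf)⟩, hf, rfl⟩
    have h2 : (fun γ => (χW W B γ : Ω)) '' {γ | γ ∈ B.Γ ∧ 0 ≤ γ} =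
        B.χ '' {γ | γ ∈ B.Γ ∧ 0 ≤ γ} := Set.image_congr fun γ hγ => χW_coe B hW hγ.1
    rw [h1, h2, ← hF]
  gen := by
    intro f hf h0
    obtain ⟨γ, hγ, a, ha, h1, b, hb, e⟩ := B.gen _ hf (vpos_rv.1 h0)
    refine ⟨γ, hγ, ⟨a, hW a ha⟩, ha, h1.imp id fun h => Subtype.ext h,
      fun i => ⟨b i, hW _ (hb i)⟩, hb, Subtype.ext ?_⟩
    have e' : (f : Ω) = B.χ γ * a + ∑ i, B.y i * b i := e
    rw [e']
    push_cast
    rw [χW_coe B hW hγ]

/-- A limit frame of `W` in `Ω`. -/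
noncomputable def lfUp (C : LF k (rv v W) r D) : LF k v r D where
  Γ := C.Γ
  fg := C.fg
  rk := C.rk
  χ := fun γ => (C.χ γ : Ω)
  χ_ne := fun γ hγ => coe_ne.2 (C.χ_ne γ hγ)
  χ_add := fun γ hγ δ hδ => congrArg (fun a : W => (a : Ω)) (C.χ_add γ hγ δ hδ)
  χ_val := fun γ hγ => C.χ_val γ hγ
  y := fun i => (C.y i : Ω)
  y_ne := fun i => coe_ne.2 (C.y_ne i)
  y_pos := fun i => C.y_pos i
  R := up W C.R
  nonneg := fun f hf => by
    obtain ⟨g, hg, rfl⟩ := mem_up.1 hf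
    exact ge_rv.1 (C.nonneg g hg)
  loc := fun f hf h0 hv => by
    obtain ⟨g, hg, rfl⟩ := mem_up.1 hf
    exact mem_up.2 ⟨g⁻¹, C.loc g hg (coe_ne.1 h0) hv, rfl⟩
  χ_mem := fun γ hγ h0 => mem_up.2 ⟨_, C.χ_mem γ hγ h0, rfl⟩
  y_mem := fun i => mem_up.2 ⟨_, C.y_mem i, rfl⟩
  fgen := by
    classical
    obtain ⟨F, hF⟩ := C.fgen
    refine ⟨F.image (fun a : W => (a : Ω)), ?_⟩
    rw [hF, up_locv, up_adjoin, Set.image_union, Set.image_image, Finset.coe_image]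
  gen := by
    intro f hf h0
    obtain ⟨g, hg, rfl⟩ := mem_up.1 hf
    obtain ⟨γ, hγ, a, ha, h1, b, hb, e⟩ := C.gen g hg (vpos_rv.2 h0)
    refine ⟨γ, hγ, a, mem_up.2 ⟨a, ha, rfl⟩, h1.imp id fun h => by rw [h]; rfl,
      fun i => (b i : Ω), fun i => mem_up.2 ⟨_, hb i, rfl⟩, ?_⟩
    have h2 : (g : Ω) = ((C.χ γ * a + ∑ i, C.y i * b i : W) : Ω) :=
      congrArg (fun a : W => (a : Ω)) e
    rw [h2]
    push_cast
    rfl

end Pool.Agent.TGL44
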