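import Pool.Agent.Lib.TGL_h44.ZLa
import Pool.Agent.Lib.ALLG.ZMain

/-!
# TANK G, TRACK L, row ZL: block Z for limit frames of positive rank
-/

set_option autoImplicit false

namespace Pool.Agent.TGL44

open Pool.Agent.TAO (OVal VPos Ctx0)
open Pool.Agent.ALLO (locv icl ICl decP)
open Pool.Agent.LU1 (FracIs fixO mem_fixO)
open Pool.Agent.TGL (LF)
open Pool.Agent.ALLZO (GoodBasis NRing CN AH)

universe u w

variable {k Ω : Type u} [Field k] [Field Ω] [Algebra k Ω] {𝕂 : Type w} [Field 𝕂] [LinearOrder 𝕂]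
  [IsStrictOrderedRing 𝕂] {v : OVal 𝕂 Ω} {r D : ℕ}

/-- Denominators: `χ(γ) c ∈ A` gives `(∏ χ(u i))^M c ∈ A`. -/
theorem pow_den (B : ALLG.FR k v r D) {u : Fin r → 𝕂} (hu : GoodBasis B.Γ ∅ u)
    {A : Subalgebra k Ω} (hA : B.R ≤ A) {γ : 𝕂} (hγ : γ ∈ B.Γ) {a : Ω} (h1 : B.χ γ * a ∈ A) :
    ∃ M : ℕ, (∏ i, B.χ (u i)) ^ M * a ∈ A := by
  obtain ⟨m, rfl⟩ := hu.gen γ hγ
  have h2 := (ALLG.χ_sum B Finset.univ u hu.mem m).2
  refine ⟨∑ i, (m i).natAbs, ?_⟩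
  have h3 : (∏ i, B.χ (u i)) ^ (∑ i, (m i).natAbs) * a =
      (∏ i, B.χ (u i) ^ (((∑ i, (m i).natAbs : ℕ) : ℤ) - m i)) *
        (B.χ (∑ i, (m i : 𝕂) * u i) * a) := by
    rw [h2, ← mul_assoc, ← Finset.prod_mul_distrib, ← Finset.prod_pow]
    congr 1
    refine Finset.prod_congr rfl fun i _ => ?_
    rw [← zpow_add₀ (B.χ_ne _ (hu.mem i)), sub_add_cancel, zpow_natCast]
  rw [h3]
  refine A.mul_mem (A.prod_mem fun i _ => ?_) h1
  have h4 : (0 : ℤ) ≤ ((∑ i, (m i).natAbs : ℕ) : ℤ) - m i := by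
    have h5 : (m i).natAbs ≤ ∑ i, (m i).natAbs :=
      Finset.single_le_sum (f := fun i => (m i).natAbs) (fun _ _ => Nat.zero_le _)
        (Finset.mem_univ i)
    omega
  obtain ⟨t, ht⟩ := Int.eq_ofNat_of_zero_le h4
  rw [ht, zpow_natCast]
  exact A.pow_mem (hA (B.χ_mem _ (hu.mem i) (hu.pos i).le)) _

/-- Block Z for the frames of `ALLG`. -/
theorem zCoreG (k : Type u) [Field k] (𝕂 : Type w) [Field 𝕂] [LinearOrder 𝕂]
    [IsStrictOrderedRing 𝕂] (p : ℕ) [hp : Fact p.Prime] [CharP k p] : ZCoreG k 𝕂 p := by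
  intro Ω _ _ _ v n r D h hr hn K N _ _ H F hF hidx hc
  have hcΩ : CharP Ω p := (Algebra.charP_iff k Ω p).1 inferInstance
  have hka : IsAlgClosed k := ALLZO.isAlgClosed_of_ctx h
  have hk : ∀ c : k, ∃ d : k, d ^ p = c := fun c => IsAlgClosed.exists_pow_nat_eq c hp.out.pos
  have hR : NRing v K F.R := ALLG.fr_NRing p h hk hr hn F hF
  refine ALLG.H18.z_coreB p h hr hn H hF rfl hidx ?_
  intro u hu a ha
  have hI : ∀ b : Ω, b ∈ AH v F.R H ↔ b ∈ ICl v F.R (fixO K N H) := fun b =>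
    (ALLZO.mem_ICl_fixO h hR H).symm
  obtain ⟨c, hc1, hc2⟩ := hc u hu a ((hI a).1 ha)
  refine ⟨c, fun μ => ?_, hc2⟩
  obtain ⟨γ, hγ, h1⟩ := hc1 μ
  exact pow_den F hu (ALLZO.le_AH hF.1 H) hγ ((hI _).2 h1)

/-- **Block Z for limit frames of positive rank.** -/
theorem zl_pos {p : ℕ} [Fact p.Prime] [CharP Ω p] [IsAlgClosed Ω] {n : ℕ} (h : Ctx0 k v n)
    (hr : 0 < r) (B : LF k v r D) {K : IntermediateField k Ω} (hK : FracIs B.R K)
    (htr : Algebra.trdeg k K = ((r + D : ℕ)))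
    {N : IntermediateField K Ω} [FiniteDimensional K N] [IsGalois K N]
    (H : Subgroup (N ≃ₐ[K] N)) (hidx : H.relIndex (decP v B.R K N) < p)
    (hco : B.Coord p (ICl v B.R (fixO K N H))) :
    ∃ C : LF k v r D, C.R = ICl v B.R (fixO K N H) ∧ B.Ext C ∧
      ∀ γ ∈ C.Γ, ∃ e : ℕ, 0 < e ∧ e < p ∧ (e : 𝕂) * γ ∈ B.Γ := by
  have _ : CharP k p := (Algebra.charP_iff k Ω p).2 inferInstance
  exact zcoreL_pos p (zCoreG k 𝕂 p) h hr H htr B hK hidx hco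

end Pool.Agent.TGL44
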