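import Pool.Agent.Lib.ALLZO.RDFrame
import Pool.Agent.Lib.ALLG.Defs

/-!
# TANK G, TRACK L, row TR: transfer to a subfield `W` of `Ω`

`W` is an intermediate field of `Ω/k` containing everything in question (later: the algebraic
closure in `Ω` of the field of fractions of the frame ring). Valuations, subalgebras, integral
closures, Galois groups, decomposition groups are transported from `Ω` to `W`.
-/

set_option autoImplicit false

open Polynomial

namespace Pool.Agent.TGL44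

open Pool.Agent.TAO (OVal VPos Ctx0)
open Pool.Agent.ALLO (locv icl ICl decP)
open Pool.Agent.LU1 (FracIs fixO mem_fixO)

universe u w

variable {k Ω : Type u} [Field k] [Field Ω] [Algebra k Ω] {𝕂 : Type w} [Field 𝕂] [LinearOrder 𝕂]
  [IsStrictOrderedRing 𝕂] {v : OVal 𝕂 Ω} {W : IntermediateField k Ω}

/-! ### Valuations and subalgebras -/

/-- The restriction of `v` to `W`. -/
def rv (v : OVal 𝕂 Ω) (W : IntermediateField k Ω) : OVal 𝕂 W where
  toFun a := v (a : Ω)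
  map_mul' _ _ hx hy := v.map_mul (fun h => hx (Subtype.ext h)) (fun h => hy (Subtype.ext h))
  map_add' _ _ hx hy hxy := v.map_add (fun h => hx (Subtype.ext h)) (fun h => hy (Subtype.ext h))
    (fun h => hxy (Subtype.ext h))

theorem rv_apply (a : W) : rv v W a = v (a : Ω) := rfl

theorem coe_ne {a : W} : (a : Ω) ≠ 0 ↔ a ≠ 0 :=
  ⟨fun h h0 => h (by rw [h0]; rfl), fun h h0 => h (Subtype.ext h0)⟩

theorem ge_rv {c : 𝕂} {a : W} : (rv v W).Ge c a ↔ v.Ge c (a : Ω) :=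
  ⟨fun h h0 => h (coe_ne.1 h0), fun h h0 => h (coe_ne.2 h0)⟩

theorem vpos_rv {a : W} : VPos (rv v W) a ↔ VPos v (a : Ω) :=
  ⟨fun h h0 => h (coe_ne.1 h0), fun h h0 => h (coe_ne.2 h0)⟩

/-- `R` as a subalgebra of `W`. -/
def dn (W : IntermediateField k Ω) (R : Subalgebra k Ω) : Subalgebra k W := R.comap W.val

theorem mem_dn {R : Subalgebra k Ω} {a : W} : a ∈ dn W R ↔ (a : Ω) ∈ R := Iff.rfl

/-- A subalgebra of `W` as a subalgebra of `Ω`. -/
def up (W : IntermediateField k Ω) (S : Subalgebra k W) : Subalgebra k Ω := S.map W.val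

theorem mem_up {S : Subalgebra k W} {a : Ω} : a ∈ up W S ↔ ∃ b ∈ S, (b : Ω) = a := Iff.rfl

theorem up_dn {R : Subalgebra k Ω} (hR : ∀ f ∈ R, f ∈ W) : up W (dn W R) = R := by
  ext a
  rw [mem_up]
  constructor
  · rintro ⟨b, hb, rfl⟩
    exact hb
  · intro ha
    exact ⟨⟨a, hR a ha⟩, ha, rfl⟩

theorem dn_up (S : Subalgebra k W) : dn W (up W S) = S := by
  ext a
  rw [mem_dn, mem_up]
  constructor
  · rintro ⟨b, hb, hab⟩
    rwa [← Subtype.ext hab]
  · intro ha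
    exact ⟨a, ha, rfl⟩

theorem mem_up_coe {S : Subalgebra k W} {a : W} : (a : Ω) ∈ up W S ↔ a ∈ S := by
  rw [← mem_dn, dn_up]

theorem up_le {S : Subalgebra k W} {a : Ω} (ha : a ∈ up W S) : a ∈ W := by
  obtain ⟨b, -, rfl⟩ := mem_up.1 ha
  exact b.2

theorem up_locv (S : Subalgebra k W) : up W (locv (rv v W) S) = locv v (up W S) := by
  ext a
  rw [mem_up]
  constructor
  · rintro ⟨_, ⟨b, hb, c, hc, hc0, hvc, rfl⟩, rfl⟩
    exact ⟨b, mem_up_coe.2 hb, c, mem_up_coe.2 hc, coe_ne.2 hc0, hvc, rfl⟩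
  · rintro ⟨b, hb, c, hc, hc0, hvc, rfl⟩
    obtain ⟨b', hb', rfl⟩ := mem_up.1 hb
    obtain ⟨c', hc', rfl⟩ := mem_up.1 hc
    exact ⟨b' / c', ⟨b', hb', c', hc', coe_ne.1 hc0, hvc, rfl⟩, rfl⟩

theorem dn_locv {R : Subalgebra k Ω} (hR : ∀ f ∈ R, f ∈ W) :
    dn W (locv v R) = locv (rv v W) (dn W R) := by
  rw [← dn_up (W := W) (locv (rv v W) (dn W R)), up_locv, up_dn hR]

theorem up_adjoin (S : Set W) :
    up W (Algebra.adjoin k S) = Algebra.adjoin k ((fun a : W => (a : Ω)) '' S) :=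
  AlgHom.map_adjoin W.val S

theorem isIntegral_dn {R : Subalgebra k Ω} (hR : ∀ f ∈ R, f ∈ W) {a : W} :
    IsIntegral (dn W R) a ↔ IsIntegral R (a : Ω) := by
  constructor
  · rintro ⟨P, hP, hPa⟩
    let j : dn W R →+* R :=
      { toFun := fun a => ⟨(a : W), a.2⟩
        map_one' := rfl
        map_mul' := fun _ _ => rfl
        map_zero' := rfl
        map_add' := fun _ _ => rfl }
    refine ⟨P.map j, hP.map _, ?_⟩
    rw [eval₂_map]
    have h1 := hom_eval₂ P (algebraMap (dn W R) W) (W.val : W →+* Ω) a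
    rw [hPa, map_zero] at h1
    exact h1.symm
  · rintro ⟨P, hP, hPa⟩
    let ι : R →+* dn W R :=
      { toFun := fun a => ⟨⟨a, hR a a.2⟩, a.2⟩
        map_one' := rfl
        map_mul' := fun _ _ => rfl
        map_zero' := rfl
        map_add' := fun _ _ => rfl }
    refine ⟨P.map ι, hP.map _, ?_⟩
    rw [eval₂_map]
    apply Subtype.ext
    have h1 := hom_eval₂ P ((algebraMap (dn W R) W).comp ι) (W.val : W →+* Ω) a
    exact h1.trans hPa

theorem dn_icl {R : Subalgebra k Ω} (hR : ∀ f ∈ R, f ∈ W) (E : IntermediateField k Ω) :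
    dn W (icl R E) = icl (dn W R) (E.comap W.val) := by
  ext a
  exact ⟨fun h => ⟨h.1, (isIntegral_dn hR).2 h.2⟩, fun h => ⟨h.1, (isIntegral_dn hR).1 h.2⟩⟩

theorem dn_ICl {R : Subalgebra k Ω} (hR : ∀ f ∈ R, f ∈ W) {E : IntermediateField k Ω}
    (hE : E ≤ W) : dn W (ICl v R E) = ICl (rv v W) (dn W R) (E.comap W.val) := by
  have h1 : ∀ f ∈ icl R E, f ∈ W := fun f hf => hE hf.1
  rw [ICl, ICl, ← dn_icl hR, dn_locv h1]

theorem up_ICl {R : Subalgebra k Ω} (hR : ∀ f ∈ R, f ∈ W) {E : IntermediateField k Ω}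
    (hE : E ≤ W) : up W (ICl (rv v W) (dn W R) (E.comap W.val)) = ICl v R E := by
  rw [← dn_ICl hR hE, up_dn]
  rintro _ ⟨b, hb, c, hc, -, -, rfl⟩
  exact div_mem (hE hb.1) (hE hc.1)

theorem frac_dn {R : Subalgebra k Ω} {E : IntermediateField k Ω} (hE : E ≤ W) (h : FracIs R E) :
    FracIs (dn W R) (E.comap W.val) := by
  refine ⟨fun f hf => h.1 _ hf, fun g hg => ?_⟩
  obtain ⟨a, ha, b, hb, hb0, hab⟩ := h.2 _ hg
  exact ⟨⟨a, hE (h.1 a ha)⟩, ha, ⟨b, hE (h.1 b hb)⟩, hb, fun h0 => hb0 (congrArg Subtype.val h0),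
    Subtype.ext hab⟩

theorem frac_up {S : Subalgebra k W} {E : IntermediateField k Ω} (hE : E ≤ W)
    (h : FracIs S (E.comap W.val)) : FracIs (up W S) E := by
  refine ⟨fun f hf => ?_, fun g hg => ?_⟩
  · obtain ⟨f', hf', rfl⟩ := mem_up.1 hf
    exact h.1 f' hf'
  · obtain ⟨a, ha, b, hb, hb0, hab⟩ := h.2 ⟨g, hE hg⟩ hg
    exact ⟨a, mem_up_coe.2 ha, b, mem_up_coe.2 hb, coe_ne.2 hb0, congrArg Subtype.val hab⟩

/-! ### Galois theory -/

variable {K : IntermediateField k Ω} {N : IntermediateField K Ω}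

/-- `N` as an extension of `K` inside `W`. -/
def dnN (W : IntermediateField k Ω) (N : IntermediateField K Ω) :
    IntermediateField (K.comap W.val) W where
  carrier := {a | (a : Ω) ∈ N}
  mul_mem' := fun ha hb => N.mul_mem ha hb
  add_mem' := fun ha hb => N.add_mem ha hb
  algebraMap_mem' := fun c => N.algebraMap_mem ⟨((c : W) : Ω), c.2⟩
  inv_mem' := fun _ ha => N.inv_mem ha

theorem mem_dnN {a : W} : a ∈ dnN W N ↔ (a : Ω) ∈ N := Iff.rfl

theorem le_of_N (hN : ∀ a ∈ N, a ∈ W) : K ≤ W := fun a ha => hN a (N.algebraMap_mem ⟨a, ha⟩)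

/-- `K` and its copy in `W`. -/
def eK (hK : K ≤ W) : K ≃+* K.comap W.val where
  toFun a := ⟨⟨a, hK a.2⟩, a.2⟩
  invFun a := ⟨((a : W) : Ω), a.2⟩
  left_inv _ := rfl
  right_inv _ := rfl
  map_mul' _ _ := rfl
  map_add' _ _ := rfl

/-- `N` and its copy in `W`. -/
def eN (hN : ∀ a ∈ N, a ∈ W) : N ≃+* dnN W N where
  toFun a := ⟨⟨a, hN a a.2⟩, a.2⟩
  invFun a := ⟨((a : W) : Ω), a.2⟩
  left_inv _ := rfl
  right_inv _ := rfl
  map_mul' _ _ := rfl
  map_add' _ _ := rfl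

theorem eN_coe (hN : ∀ a ∈ N, a ∈ W) (a : N) : (((eN hN a : dnN W N) : W) : Ω) = a := rfl

theorem eN_symm_coe (hN : ∀ a ∈ N, a ∈ W) (a : dnN W N) :
    (((eN hN).symm a : N) : Ω) = ((a : W) : Ω) := rfl

theorem finiteDimensional_dnN (hN : ∀ a ∈ N, a ∈ W) [FiniteDimensional K N] :
    FiniteDimensional (K.comap W.val) (dnN W N) :=
  Module.Finite.of_equiv_equiv (eK (le_of_N hN)) (eN hN) rfl

theorem isGalois_dnN (hN : ∀ a ∈ N, a ∈ W) [IsGalois K N] :
    IsGalois (K.comap W.val) (dnN W N) :=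
  IsGalois.of_equiv_equiv (f := eK (le_of_N hN)) (g := eN hN) rfl

theorem finrank_dnN (hN : ∀ a ∈ N, a ∈ W) :
    Module.finrank (K.comap W.val) (dnN W N) = Module.finrank K N :=
  (Algebra.finrank_eq_of_equiv_equiv (eK (le_of_N hN)) (eN hN) rfl).symm

/-- The isomorphism of the Galois groups. -/
def autW (hN : ∀ a ∈ N, a ∈ W) : (N ≃ₐ[K] N) ≃* (dnN W N ≃ₐ[K.comap W.val] dnN W N) where
  toFun σ := AlgEquiv.ofRingEquiv (f := ((eN hN).symm.trans σ.toRingEquiv).trans (eN hN))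
    (fun c => by
      apply Subtype.ext
      apply Subtype.ext
      exact congrArg (fun a : N => (a : Ω)) (σ.commutes ((eK (le_of_N hN)).symm c)))
  invFun τ := AlgEquiv.ofRingEquiv (f := ((eN hN).trans τ.toRingEquiv).trans (eN hN).symm)
    (fun c => by
      apply Subtype.ext
      exact congrArg (fun a : dnN W N => ((a : W) : Ω)) (τ.commutes (eK (le_of_N hN) c)))
  left_inv σ := by
    ext a
    rfl
  right_inv τ := by
    ext a
    rfl
  map_mul' σ τ := by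
    ext a
    rfl

theorem autW_coe (hN : ∀ a ∈ N, a ∈ W) (σ : N ≃ₐ[K] N) (a : N) :
    (((autW hN σ (eN hN a) : dnN W N) : W) : Ω) = ((σ a : N) : Ω) := rfl

theorem decP_dn {R : Subalgebra k Ω} (hR : ∀ f ∈ R, f ∈ W) (hN : ∀ a ∈ N, a ∈ W) :
    decP (rv v W) (dn W R) (K.comap W.val) (dnN W N) =
      (decP v R K N).map (autW hN).toMonoidHom := by
  have key : ∀ σ : N ≃ₐ[K] N, autW hN σ ∈ decP (rv v W) (dn W R) (K.comap W.val) (dnN W N) ↔
      σ ∈ decP v R K N := by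
    intro σ
    constructor
    · intro h a ha
      obtain ⟨h1, h2, h3⟩ := h (eN hN a) ((isIntegral_dn hR).2 ha)
      rw [← map_inv] at h2
      exact ⟨(isIntegral_dn hR).1 h1, (isIntegral_dn hR).1 h2,
        (vpos_rv (W := W) (a := (eN hN a : dnN W N))).symm.trans (h3.trans vpos_rv)⟩
    · intro h a ha
      obtain ⟨h1, h2, h3⟩ := h ((eN hN).symm a) ((isIntegral_dn hR).1 ha)
      rw [← map_inv]
      exact ⟨(isIntegral_dn hR).2 h1, (isIntegral_dn hR).2 h2, (vpos_rv (W := W)).trans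
        (h3.trans (vpos_rv (W := W) (a := (autW hN σ a : dnN W N))).symm)⟩
  ext τ
  rw [Subgroup.mem_map]
  constructor
  · intro h
    refine ⟨(autW hN).symm τ, (key _).1 ?_, (autW hN).apply_symm_apply τ⟩
    rw [(autW hN).apply_symm_apply]
    exact h
  · rintro ⟨σ, hσ, rfl⟩
    exact (key σ).2 hσ

theorem relIndex_dn {R : Subalgebra k Ω} (hR : ∀ f ∈ R, f ∈ W) (hN : ∀ a ∈ N, a ∈ W)
    (H : Subgroup (N ≃ₐ[K] N)) :
    (H.map (autW hN).toMonoidHom).relIndex
      (decP (rv v W) (dn W R) (K.comap W.val) (dnN W N)) = H.relIndex (decP v R K N) := by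
  rw [decP_dn hR hN]
  exact Subgroup.relIndex_map_map_of_injective H _ (autW hN).injective

theorem fixO_dn (hN : ∀ a ∈ N, a ∈ W) (H : Subgroup (N ≃ₐ[K] N)) :
    fixO (K.comap W.val) (dnN W N) (H.map (autW hN).toMonoidHom) =
      (fixO K N H).comap W.val := by
  ext a
  rw [mem_fixO]
  change _ ↔ (a : Ω) ∈ fixO K N H
  rw [mem_fixO]
  constructor
  · rintro ⟨b, rfl, hb⟩
    refine ⟨(eN hN).symm b, rfl, fun σ hσ => ?_⟩
    have h1 := hb _ (Subgroup.mem_map_of_mem _ hσ)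
    apply Subtype.ext
    exact congrArg (fun a : dnN W N => ((a : W) : Ω)) h1
  · rintro ⟨b, hb, hb'⟩
    refine ⟨eN hN b, Subtype.ext hb, ?_⟩
    rintro _ ⟨σ, hσ, rfl⟩
    apply Subtype.ext
    apply Subtype.ext
    exact congrArg (fun a : N => (a : Ω)) (hb' σ hσ)

end Pool.Agent.TGL44
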