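import Pool.Agent.Lib.TGL_h44.LFT
import Pool.Agent.Lib.ALLZO.ZDefs

/-!
# TANK G, TRACK L, row ZL: block Z for limit frames, from block Z for the frames of `ALLG`
-/

set_option autoImplicit false

open Polynomial

namespace Pool.Agent.TGL44

open Pool.Agent.TAO (OVal VPos Ctx0)
open Pool.Agent.ALLO (locv icl ICl decP)
open Pool.Agent.LU1 (FracIs fixO mem_fixO)
open Pool.Agent.TGL (LF)
open Pool.Agent.ALLZO (GoodBasis NRing CN AH)

universe u w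

/-! ### The torsion of `Γ_C / Γ_B` -/

section Tors

variable {𝕂 : Type w} [Field 𝕂] [LinearOrder 𝕂] [IsStrictOrderedRing 𝕂] {r : ℕ}

/-- `Γ` and `Γ'` of the same rank, `Γ ≤ Γ'`: `Γ' / Γ` is torsion. -/
theorem tors_of_rk {Γ Γ' : AddSubgroup 𝕂} (hle : ∀ γ ∈ Γ, γ ∈ Γ')
    (h : ∃ X : Fin r → 𝕂, LinearIndependent ℚ X ∧ (∀ i, X i ∈ Γ) ∧
      ∀ γ ∈ Γ, γ ∈ Submodule.span ℚ (Set.range X))
    (h' : ∃ X : Fin r → 𝕂, LinearIndependent ℚ X ∧ (∀ i, X i ∈ Γ') ∧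
      ∀ γ ∈ Γ', γ ∈ Submodule.span ℚ (Set.range X)) {γ : 𝕂} (hγ : γ ∈ Γ') :
    ∃ e : ℕ, 0 < e ∧ (e : 𝕂) * γ ∈ Γ := by
  obtain ⟨X, hX, hXΓ, -⟩ := h
  obtain ⟨X', hX', hXΓ', hs'⟩ := h'
  have h1 : Submodule.span ℚ (Set.range X) ≤ Submodule.span ℚ (Set.range X') := by
    rw [Submodule.span_le]
    rintro _ ⟨i, rfl⟩
    exact hs' _ (hle _ (hXΓ i))
  have h2 : FiniteDimensional ℚ (Submodule.span ℚ (Set.range X')) :=
    FiniteDimensional.span_of_finite ℚ (Set.finite_range X')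
  have h3 : Submodule.span ℚ (Set.range X) = Submodule.span ℚ (Set.range X') := by
    refine Submodule.eq_of_le_of_finrank_eq h1 ?_
    rw [finrank_span_eq_card hX, finrank_span_eq_card hX']
  have h4 : γ ∈ Submodule.span ℚ (Set.range X) := by
    rw [h3]
    exact hs' _ hγ
  obtain ⟨c, hc⟩ := (Submodule.mem_span_range_iff_exists_fun ℚ).1 h4
  refine ⟨∏ i, (c i).den, Finset.prod_pos fun i _ => (c i).den_pos, ?_⟩
  rw [← hc, Finset.mul_sum]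
  refine AddSubgroup.sum_mem _ fun i _ => ?_
  have h5 : ((∏ j, (c j).den : ℕ) : 𝕂) * (c i • X i) =
      (((c i).num * ∏ j ∈ Finset.univ.erase i, ((c j).den : ℤ) : ℤ)) • X i := by
    rw [← Finset.mul_prod_erase _ _ (Finset.mem_univ i), zsmul_eq_mul, Rat.smul_def]
    push_cast
    have h6 : (((c i).den : ℕ) : 𝕂) * ((c i : ℚ) : 𝕂) = (((c i).num : ℤ) : 𝕂) := by
      have h7 : ((c i).den : ℚ) * (c i) = ((c i).num : ℚ) := by
        rw [mul_comm]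
        exact Rat.mul_den_eq_num (c i)
      exact_mod_cast congrArg (fun q : ℚ => (q : 𝕂)) h7
    rw [← h6]
    ring
  rw [h5]
  exact Γ.zsmul_mem (hXΓ i) _

end Tors

variable {k Ω : Type u} [Field k] [Field Ω] [Algebra k Ω] {𝕂 : Type w} [Field 𝕂] [LinearOrder 𝕂]
  [IsStrictOrderedRing 𝕂] {v : OVal 𝕂 Ω} {r D : ℕ}

/-- `Ext` without `le`, `tors`. -/
theorem ext_of {B C : LF k v r D} (h1 : ∀ γ ∈ B.Γ, γ ∈ C.Γ)
    (h2 : ∀ γ ∈ B.Γ, C.Un (B.χ γ / C.χ γ)) (h3 : C.y = B.y) (h4 : B.R ≤ C.R) : B.Ext C :=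
  ⟨h1, h2, h3, h4, fun _ hγ => tors_of_rk h1 B.rk C.rk hγ⟩

theorem mon_eq {A : Type*} [CommMonoid A] {p : ℕ} (x : Fin r → A) (y : Fin D → A)
    (μ : (Fin r → Fin p) × (Fin D → Fin p)) :
    TGL.mon x y μ = ALLZO.H18.mm x y μ := rfl

/-- Block Z for the frames of `ALLG` (the statement of the port of `z_core`). -/
def ZCoreG (k : Type u) [Field k] (𝕂 : Type w) [Field 𝕂] [LinearOrder 𝕂] [IsStrictOrderedRing 𝕂]
    (p : ℕ) : Prop :=
  ∀ (Ω : Type u) [Field Ω] [Algebra k Ω] [IsAlgClosed Ω] (v : OVal 𝕂 Ω) (n r D : ℕ),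
    Ctx0 k v n → 0 < r → n = r + D → ∀ (K : IntermediateField k Ω) (N : IntermediateField K Ω)
      (_ : FiniteDimensional K N) (_ : IsGalois K N) (H : Subgroup (N ≃ₐ[K] N))
      (F : ALLG.FR k v r D), FracIs F.R K → H.relIndex (decP v F.R K N) < p →
      (∀ u : Fin r → 𝕂, GoodBasis F.Γ ∅ u → ∀ a ∈ ICl v F.R (fixO K N H),
        ∃ c : (Fin r → Fin p) × (Fin D → Fin p) → Ω,
          (∀ μ, ∃ γ ∈ F.Γ, F.χ γ * c μ ∈ ICl v F.R (fixO K N H)) ∧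
          a = ∑ μ, ALLZO.H18.mm (fun i => F.χ (u i)) F.y μ * c μ ^ p) →
      ∃ C : ALLG.FR k v r D, C.R = ICl v F.R (fixO K N H) ∧ (∀ γ ∈ F.Γ, γ ∈ C.Γ) ∧
        (∀ γ ∈ F.Γ, C.Un (F.χ γ / C.χ γ)) ∧ C.y = F.y ∧
        ∀ γ ∈ C.Γ, ∃ e : ℕ, 0 < e ∧ e < p ∧ (e : 𝕂) * γ ∈ F.Γ

theorem le_ICl_fixO {R : Subalgebra k Ω} {K : IntermediateField k Ω} {N : IntermediateField K Ω}
    (hR : ∀ f ∈ R, f ∈ K) (H : Subgroup (N ≃ₐ[K] N)) : R ≤ ICl v R (fixO K N H) := by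
  intro f hf
  refine Pool.Agent.ALLZO.le_locv _ ⟨(mem_fixO K N H f).2
    ⟨algebraMap K N ⟨f, hR f hf⟩, rfl, fun σ _ => by rw [AlgEquiv.commutes]⟩,
    isIntegral_algebraMap (R := R) (A := Ω) (x := ⟨f, hf⟩)⟩

/-- **Block Z for limit frames of positive rank**, from block Z for the frames of `ALLG`. -/
theorem zcoreL_pos (p : ℕ) [IsAlgClosed Ω] (hG : ZCoreG k 𝕂 p) {n : ℕ} (h : Ctx0 k v n)
    (hr : 0 < r) {K : IntermediateField k Ω} {N : IntermediateField K Ω} [FiniteDimensional K N]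
    [IsGalois K N] (H : Subgroup (N ≃ₐ[K] N)) (hK : Algebra.trdeg k K = (r + D : ℕ))
    (B : LF k v r D) (hB : FracIs B.R K) (hidx : H.relIndex (decP v B.R K N) < p)
    (hc : B.Coord p (ICl v B.R (fixO K N H))) :
    ∃ C : LF k v r D, C.R = ICl v B.R (fixO K N H) ∧ B.Ext C ∧
      ∀ γ ∈ C.Γ, ∃ e : ℕ, 0 < e ∧ e < p ∧ (e : 𝕂) * γ ∈ B.Γ := by
  classical
  have hN : ∀ a ∈ N, a ∈ Wc K := N_le_Wc
  have hR : ∀ f ∈ B.R, f ∈ Wc K := fun f hf => le_Wc (hB.1 f hf)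
  have hE : fixO K N H ≤ Wc K := by
    intro a ha
    obtain ⟨b, rfl, -⟩ := (mem_fixO K N H a).1 ha
    exact hN _ b.2
  have _ : IsAlgClosed (Wc K) := isAlgClosed_Wc K
  set W := Wc K with hW
  set B' : LF k (rv v W) r D := lfDn B hR with hB'
  set F : ALLG.FR k (rv v W) r D := B'.toFR hr (alg_dn hB) with hF
  have hFR : F.R = dn W B.R := rfl
  have hfix := fixO_dn hN H
  have hI : ICl (rv v W) F.R (fixO (K.comap W.val) (dnN W N) (H.map (autW hN).toMonoidHom)) =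
      dn W (ICl v B.R (fixO K N H)) := by
    rw [hfix, hFR, dn_ICl hR hE]
  have hχ : ∀ γ ∈ B.Γ, (F.χ γ : Ω) = B.χ γ := fun γ hγ => χW_coe B hR hγ
  obtain ⟨C', c1, c2, c3, c4, c5⟩ := hG W (rv v W) (r + D) r D (ctx_Wc h hK) hr rfl
    (K.comap W.val) (dnN W N) (finiteDimensional_dnN hN) (isGalois_dnN hN)
    (H.map (autW hN).toMonoidHom) F (frac_dn le_Wc hB)
    (by rw [hFR, relIndex_dn hR hN H]; exact hidx) (by
      intro u hu a ha
      rw [hI, mem_dn] at ha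
      obtain ⟨c, hc1, hc2⟩ := hc u hu _ ha
      have hcW : ∀ μ, c μ ∈ W := by
        intro μ
        obtain ⟨γ, hγ, h1⟩ := hc1 μ
        have h2 : B.χ γ * c μ ∈ W := by
          obtain ⟨s, hs, t, ht, -, -, h3⟩ := h1
          rw [h3]
          exact div_mem (hE hs.1) (hE ht.1)
        have h3 : c μ = (B.χ γ)⁻¹ * (B.χ γ * c μ) := by
          rw [← mul_assoc, inv_mul_cancel₀ (B.χ_ne γ hγ), one_mul]
        rw [h3]
        exact W.mul_mem (W.inv_mem (lf_χ_mem_field B hR hγ)) h2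
      refine ⟨fun μ => ⟨c μ, hcW μ⟩, fun μ => ?_, ?_⟩
      · obtain ⟨γ, hγ, h1⟩ := hc1 μ
        refine ⟨γ, hγ, ?_⟩
        rw [hI, mem_dn]
        have h2 : ((F.χ γ * (⟨c μ, hcW μ⟩ : W) : W) : Ω) = B.χ γ * c μ := by
          rw [← hχ γ hγ]
          rfl
        exact h2 ▸ h1
      · apply Subtype.ext
        have h1 : (a : Ω) = ∑ μ, TGL.mon (fun i => B.χ (u i)) B.y μ * c μ ^ p := hc2
        rw [h1]
        push_cast
        refine Finset.sum_congr rfl fun μ _ => ?_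
        congr 1
        rw [ALLZO.H18.mm, TGL.mon]
        push_cast
        congr 1
        exact Finset.prod_congr rfl fun i _ => by rw [hχ _ (hu.mem i)])
  refine ⟨lfUp (LF.ofFR C'), ?_, ?_, c5⟩
  · change up W C'.R = _
    rw [c1, hI, up_dn]
    rintro _ ⟨s, hs, t, ht, -, -, rfl⟩
    exact div_mem (hE hs.1) (hE ht.1)
  · have hCR : (lfUp (LF.ofFR C')).R = ICl v B.R (fixO K N H) := by
      change up W C'.R = _
      rw [c1, hI, up_dn]
      rintro _ ⟨s, hs, t, ht, -, -, rfl⟩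
      exact div_mem (hE hs.1) (hE ht.1)
    refine ext_of (fun γ hγ => c2 γ hγ) (fun γ hγ => ?_) ?_ ?_
    · obtain ⟨h1, h2, h3⟩ := c3 γ hγ
      have h4 : ((F.χ γ / C'.χ γ : W) : Ω) = B.χ γ / (C'.χ γ : Ω) := by
        rw [← hχ γ hγ]
        rfl
      refine ⟨mem_up.2 ⟨_, h1, h4⟩, ?_, ?_⟩
      · rw [← coe_ne, h4] at h2
        exact h2
      · rw [rv_apply, h4] at h3
        exact h3
    · funext i
      have h1 := congrFun c4 i
      exact congrArg (fun a : W => (a : Ω)) h1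
    · rw [hCR]
      exact le_ICl_fixO hB.1 H

end Pool.Agent.TGL44
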